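import Mathlib

/-!
# MP_22519f_co, Q1: winnable Latvian games with non-constant hatness and `μ̂(D) = k`

For every `k ≥ 2` there are a strongly connected digraph `D` without nonempty redundant sets, not
complete, and a function `h ≥ k`, not constant `k`, such that the Latvian game `(D, h)` is winnable
and `μ̂(D) = k`.  So the answer to Q1 is negative (and it is positive for `k ≤ 1`).

The digraph: a clique `A` with `k - 1` vertices and two loops through it; the loop `b` consists of
a clique `B b` with `k - 1` vertices and a vertex `y b`, where `A` sees `B b`, `B b` sees `y b`,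
and `y b` sees `A`.  For `k = 2` these are two directed triangles with a common vertex.  One vertex
of `A` has hatness `k²`, all others `k`.
-/

set_option autoImplicit false

open Finset

namespace Pool.Agent.Results.MP_22519f_co.DigraphCounterexample

/-! ### Definitions -/

section Defs

variable {V : Type}

/-- The game `(D, g, h)` is winnable; `E u v` says that `u` sees `v`.  A rule `G v` names a set of
`g v` colours at `v` and depends only on the colours of the vertices seen by `v`. -/
def Winnable (E : V → V → Prop) (g h : V → ℕ) : Prop :=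
  ∃ G : ∀ v : V, (∀ u : V, Fin (h u)) → Finset (Fin (h v)),
    (∀ v c, (G v c).card = g v) ∧
    (∀ v c c', (∀ u, E v u → c u = c' u) → G v c = G v c') ∧
    ∀ c : ∀ u, Fin (h u), ∃ v, c v ∈ G v c

/-- `m = μ_s(D)`. -/
def IsMu (E : V → V → Prop) (s m : ℕ) : Prop :=
  IsGreatest {m : ℕ | s < m ∧ Winnable E (fun _ => s) (fun _ => m)} m

/-- `x` is the fractional hat guessing number, the supremum of `μ_s(D)/s` over `s ≥ 1`. -/
def IsMuHat (E : V → V → Prop) (x : ℝ) : Prop :=
  IsLUB {y : ℝ | ∃ s m : ℕ, 1 ≤ s ∧ IsMu E s m ∧ y = (m : ℝ) / s} x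

/-- Strongly connected digraph. -/
def StronglyConnected (E : V → V → Prop) : Prop := ∀ u v, Relation.ReflTransGen E u v

/-- `S` is redundant in the subdigraph induced on `U`: `N⁺(S)` is contained in `N⁺(u)` for all
`u ∈ N⁻(S)`. -/
def RedundantIn (E : V → V → Prop) (U S : Set V) : Prop :=
  S ⊆ U ∧ ∀ w ∈ U, (∃ v ∈ S, E v w) → ∀ u ∈ U, (∃ v ∈ S, E u v) → E u w

/-- The vertex sets that remain after successive deletions of redundant sets. -/
inductive Remains (E : V → V → Prop) : Set V → Prop
  | all : Remains E Set.univ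
  | delete (U S : Set V) : Remains E U → RedundantIn E U S → Remains E (U \ S)

/-- `D` is trivial: after deleting redundant sets, every strongly connected component is a complete
digraph. -/
def IsTrivial (E : V → V → Prop) : Prop :=
  ∃ U, Remains E U ∧ ∀ u ∈ U, ∀ v ∈ U, u ≠ v →
    Relation.ReflTransGen (fun a b => a ∈ U ∧ b ∈ U ∧ E a b) u v →
    Relation.ReflTransGen (fun a b => a ∈ U ∧ b ∈ U ∧ E a b) v u → E u v

end Defs

/-! ### Counting -/

section Counting

variable {ι : Type} [Fintype ι] [DecidableEq ι] {m s : ℕ}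

lemma count_one (i : ι) (G : (ι → Fin m) → Finset (Fin m)) (hG : ∀ x, (G x).card ≤ s)
    (hdep : ∀ x a, G (Function.update x i a) = G x) :
    (univ.filter fun x : ι → Fin m => x i ∈ G x).card * m ≤ s * m ^ Fintype.card ι := by
  have h1 : ((univ.filter fun x : ι → Fin m => x i ∈ G x) ×ˢ (univ : Finset (Fin m))).card ≤
      ((univ : Finset (ι → Fin m)).sigma fun x => G x).card := by
    refine card_le_card_of_injOn (fun p => ⟨Function.update p.1 i p.2, p.1 i⟩) ?_ ?_
    · intro p hp
      have hp1 := (mem_filter.mp (mem_product.mp (mem_coe.mp hp)).1).2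
      refine mem_coe.mpr (mem_sigma.mpr ⟨mem_univ _, ?_⟩)
      simp only
      rw [hdep]
      exact hp1
    · rintro ⟨x, a⟩ _ ⟨x', a'⟩ _ h
      simp only [Sigma.mk.injEq, heq_eq_eq] at h
      obtain ⟨h1, h2⟩ := h
      have ha : a = a' := by
        have := congrFun h1 i
        simpa using this
      have hx : x = x' := by
        funext j
        by_cases hj : j = i
        · rw [hj]; exact h2
        · have := congrFun h1 j
          rwa [Function.update_of_ne hj, Function.update_of_ne hj] at this
      rw [ha, hx]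
  rw [card_product, card_univ, Fintype.card_fin, card_sigma] at h1
  refine h1.trans ?_
  refine (Finset.sum_le_card_nsmul _ _ s fun x _ => hG x).trans ?_
  rw [card_univ, Fintype.card_fun, Fintype.card_fin, smul_eq_mul, mul_comm]

lemma count_wrong (G : ι → (ι → Fin m) → Finset (Fin m)) (hG : ∀ i x, (G i x).card ≤ s)
    (hdep : ∀ i x a, G i (Function.update x i a) = G i x) :
    m ^ Fintype.card ι * m ≤ (univ.filter fun x : ι → Fin m => ∀ i, x i ∉ G i x).card * m +
      Fintype.card ι * s * m ^ Fintype.card ι := by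
  have h1 := card_filter_add_card_filter_not (s := (univ : Finset (ι → Fin m)))
    (fun x => ∀ i, x i ∉ G i x)
  rw [card_univ, Fintype.card_fun, Fintype.card_fin] at h1
  have h2 : (univ.filter fun x : ι → Fin m => ¬ ∀ i, x i ∉ G i x).card * m ≤
      Fintype.card ι * s * m ^ Fintype.card ι := by
    have h3 : (univ.filter fun x : ι → Fin m => ¬ ∀ i, x i ∉ G i x) ⊆
        univ.biUnion fun i => univ.filter fun x : ι → Fin m => x i ∈ G i x := by
      intro x hx
      have := (mem_filter.mp hx).2
      push Not at this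
      obtain ⟨i, hi⟩ := this
      exact mem_biUnion.mpr ⟨i, mem_univ _, mem_filter.mpr ⟨mem_univ _, hi⟩⟩
    refine (Nat.mul_le_mul_right _ ((card_le_card h3).trans card_biUnion_le)).trans ?_
    rw [Finset.sum_mul]
    refine (Finset.sum_le_card_nsmul _ _ _ fun i _ => count_one i (G i) (hG i) (hdep i)).trans ?_
    rw [card_univ, smul_eq_mul, mul_assoc]
  rw [← h1, add_mul]
  have h4 : ((univ.filter fun x : ι → Fin m => ∀ i, x i ∉ G i x).card +
      (univ.filter fun x : ι → Fin m => ¬ ∀ i, x i ∉ G i x).card) = m ^ Fintype.card ι := h1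
  rw [h4]
  exact Nat.add_le_add_left h2 _

lemma exists_wrong (G : ι → (ι → Fin m) → Finset (Fin m)) (hG : ∀ i x, (G i x).card ≤ s)
    (hdep : ∀ i x a, G i (Function.update x i a) = G i x) (hm : Fintype.card ι * s < m) :
    ∃ x : ι → Fin m, ∀ i, x i ∉ G i x := by
  by_contra hcon
  push Not at hcon
  have h0 : (univ.filter fun x : ι → Fin m => ∀ i, x i ∉ G i x) = ∅ := by
    rw [filter_eq_empty_iff]
    intro x _
    push Not
    exact hcon x
  have h1 := count_wrong G hG hdep
  rw [h0, card_empty, zero_mul, zero_add, mul_comm] at h1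
  have h2 : 0 < m ^ Fintype.card ι := by
    have : 0 < m := by omega
    positivity
  exact absurd (Nat.le_of_mul_le_mul_right h1 h2) (by omega)

lemma exists_many (H : Fin m → ι → (ι → Fin m) → Finset (Fin m)) (hH : ∀ y i x, (H y i x).card ≤ s)
    (hdep : ∀ y i x a, H y i (Function.update x i a) = H y i x)
    (hm : (Fintype.card ι + 1) * s < m) :
    ∃ x : ι → Fin m, s < (univ.filter fun y => ∀ i, x i ∉ H y i x).card := by
  by_contra hcon
  push Not at hcon
  have hm0 : 0 < m := by omega
  have h1 : ∑ x : ι → Fin m, (univ.filter fun y => ∀ i, x i ∉ H y i x).card ≤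
      s * m ^ Fintype.card ι := by
    refine (Finset.sum_le_card_nsmul _ _ s fun x _ => hcon x).trans ?_
    rw [card_univ, Fintype.card_fun, Fintype.card_fin, smul_eq_mul, mul_comm]
  have h2 : ∑ x : ι → Fin m, (univ.filter fun y => ∀ i, x i ∉ H y i x).card =
      ∑ y : Fin m, (univ.filter fun x : ι → Fin m => ∀ i, x i ∉ H y i x).card := by
    simp only [card_filter]
    rw [Finset.sum_comm]
  have h3 : m * (m ^ Fintype.card ι * m) ≤
      (∑ y : Fin m, (univ.filter fun x : ι → Fin m => ∀ i, x i ∉ H y i x).card) * m +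
        m * (Fintype.card ι * s * m ^ Fintype.card ι) := by
    have h4 : ∑ y : Fin m, m ^ Fintype.card ι * m ≤
        ∑ y : Fin m, ((univ.filter fun x : ι → Fin m => ∀ i, x i ∉ H y i x).card * m +
          Fintype.card ι * s * m ^ Fintype.card ι) :=
      Finset.sum_le_sum fun y _ => count_wrong (H y) (hH y) (hdep y)
    rw [sum_const, card_univ, Fintype.card_fin, smul_eq_mul, sum_add_distrib, sum_const, card_univ,
      Fintype.card_fin, smul_eq_mul, ← Finset.sum_mul] at h4
    exact h4
  rw [← h2] at h3
  have h4 : m * (m ^ Fintype.card ι * m) ≤ (s * m ^ Fintype.card ι) * m +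
        m * (Fintype.card ι * s * m ^ Fintype.card ι) :=
    h3.trans (Nat.add_le_add_right (Nat.mul_le_mul_right _ h1) _)
  have h5 : (m * m ^ Fintype.card ι) * m ≤ (m * m ^ Fintype.card ι) * ((Fintype.card ι + 1) * s) := by
    calc (m * m ^ Fintype.card ι) * m = m * (m ^ Fintype.card ι * m) := by ring
      _ ≤ _ := h4
      _ = _ := by ring
  have h6 : 0 < m * m ^ Fintype.card ι := by positivity
  exact absurd (Nat.le_of_mul_le_mul_left h5 h6) (by omega)

end Counting

/-! ### General facts on winnable games -/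

section General

variable {V : Type}

/-- Fewer colours are easier. -/
lemma winnable_mono (E : V → V → Prop) (g h h' : V → ℕ) (hh : ∀ v, h' v ≤ h v)
    (hg : ∀ v, g v ≤ h' v) (hw : Winnable E g h) : Winnable E g h' := by
  classical
  obtain ⟨G, hG1, hG2, hG3⟩ := hw
  have hpad : ∀ v (T : Finset (Fin (h v))), T.card = g v →
      ∃ T' : Finset (Fin (h' v)), T'.card = g v ∧ ∀ a, Fin.castLE (hh v) a ∈ T → a ∈ T' := by
    intro v T hT
    set P := univ.filter fun a : Fin (h' v) => Fin.castLE (hh v) a ∈ T with hP
    have h1 : P.card ≤ g v := by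
      rw [← hT]
      refine card_le_card_of_injOn (Fin.castLE (hh v)) ?_ ?_
      · intro a ha
        exact mem_coe.mpr (mem_filter.mp (mem_coe.mp ha)).2
      · intro a _ b _ hab
        exact Fin.castLE_injective (hh v) hab
    obtain ⟨T', hT', hT'c⟩ := exists_superset_card_eq h1 (by rw [Fintype.card_fin]; exact hg v)
    exact ⟨T', hT'c, fun a ha => hT' (mem_filter.mpr ⟨mem_univ _, ha⟩)⟩
  choose pad hpad1 hpad2 using hpad
  let lift : (∀ u, Fin (h' u)) → ∀ u, Fin (h u) := fun c u => Fin.castLE (hh u) (c u)
  refine ⟨fun v c => pad v (G v (lift c)) (hG1 v _), fun v c => hpad1 v _ _, ?_, ?_⟩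
  · intro v c c' hcc
    have : G v (lift c) = G v (lift c') := hG2 v _ _ fun u hu => by
      show Fin.castLE (hh u) (c u) = Fin.castLE (hh u) (c' u)
      rw [hcc u hu]
    simp only [this]
  · intro c
    obtain ⟨v, hv⟩ := hG3 (lift c)
    exact ⟨v, hpad2 v _ _ (c v) hv⟩

lemma winnable_le_card [Fintype V] (E : V → V → Prop) (hE : ∀ v, ¬ E v v) (s m : ℕ)
    (hw : Winnable E (fun _ => s) (fun _ => m)) : m ≤ Fintype.card V * s := by
  classical
  obtain ⟨G, hG1, hG2, hG3⟩ := hw
  by_contra hcon
  push Not at hcon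
  obtain ⟨x, hx⟩ := exists_wrong (ι := V) (m := m) (s := s) (fun v c => G v c)
    (fun v c => (hG1 v c).le) (fun v c a => hG2 v _ _ fun u hu => by
      have huv : u ≠ v := by
        rintro rfl
        exact hE u hu
      rw [Function.update_of_ne huv]) hcon
  obtain ⟨v, hv⟩ := hG3 x
  exact hx v hv

end General


/-! ### The digraph -/

section Example

variable (n : ℕ)

/-- The vertices: a clique `A` with `n + 1` vertices, and for `b : Bool` a clique `B b` with
`n + 1` vertices and a vertex `y b`. -/
abbrev Vert (n : ℕ) : Type := Option (Fin n) ⊕ (Bool × Option (Fin (n + 1)))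

/-- `A` sees `A` and both `B b`; `B b` sees `B b` and `y b`; `y b` sees `A`. -/
def Arc : Vert n → Vert n → Prop
  | Sum.inl i, Sum.inl j => i ≠ j
  | Sum.inl _, Sum.inr (_, some _) => True
  | Sum.inl _, Sum.inr (_, none) => False
  | Sum.inr (b, some i), Sum.inr (b', some j) => b = b' ∧ i ≠ j
  | Sum.inr (b, some _), Sum.inr (b', none) => b = b'
  | Sum.inr (_, some _), Sum.inl _ => False
  | Sum.inr (_, none), Sum.inl _ => True
  | Sum.inr (_, none), Sum.inr _ => False

/-- The hatness. -/
def hat : Vert n → ℕ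
  | Sum.inl none => (n + 2) ^ 2
  | Sum.inl (some _) => n + 2
  | Sum.inr _ => n + 2

lemma arc_irrefl (v : Vert n) : ¬ Arc n v v := by
  rcases v with i | ⟨b, _ | i⟩ <;> simp [Arc]

lemma strongly : StronglyConnected (Arc n) := by
  have h1 : ∀ v : Vert n, Relation.ReflTransGen (Arc n) (Sum.inl none) v := by
    intro v
    rcases v with (_ | i) | ⟨b, _ | i⟩
    · exact Relation.ReflTransGen.refl
    · exact Relation.ReflTransGen.single (by simp [Arc])
    · exact Relation.ReflTransGen.tail
        (Relation.ReflTransGen.single (b := Sum.inr (b, some 0)) (by simp [Arc])) (by simp [Arc])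
    · exact Relation.ReflTransGen.single (by simp [Arc])
  have h2 : ∀ v : Vert n, Relation.ReflTransGen (Arc n) v (Sum.inl none) := by
    intro v
    rcases v with (_ | i) | ⟨b, _ | i⟩
    · exact Relation.ReflTransGen.refl
    · exact Relation.ReflTransGen.single (by simp [Arc])
    · exact Relation.ReflTransGen.single (by simp [Arc])
    · exact Relation.ReflTransGen.tail
        (Relation.ReflTransGen.single (b := Sum.inr (b, none)) (by simp [Arc])) (by simp [Arc])
  exact fun u v => (h2 u).trans (h1 v)

lemma no_redundant (S : Set (Vert n)) (hS : RedundantIn (Arc n) Set.univ S) : S = ∅ := by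
  obtain ⟨_, hS⟩ := hS
  simp only [Set.mem_univ, forall_true_left] at hS
  by_contra hne
  obtain ⟨v, hv⟩ := Set.nonempty_iff_ne_empty.mpr hne
  rcases v with i | ⟨b, _ | i⟩
  · -- a vertex of `A`
    have := hS (Sum.inr (false, some 0)) ⟨_, hv, by simp [Arc]⟩ (Sum.inr (false, none))
      ⟨_, hv, by simp [Arc]⟩
    simp [Arc] at this
  · -- the vertex `y b`
    have := hS (Sum.inl none) ⟨_, hv, by simp [Arc]⟩ (Sum.inr (b, some 0)) ⟨_, hv, by simp [Arc]⟩
    simp [Arc] at this
  · -- a vertex of `B b`
    have := hS (Sum.inr (b, none)) ⟨_, hv, by simp [Arc]⟩ (Sum.inl none) ⟨_, hv, by simp [Arc]⟩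
    simp [Arc] at this

lemma not_trivial : ¬ IsTrivial (Arc n) := by
  rintro ⟨U, hU, h⟩
  have hU' : U = Set.univ := by
    clear h
    induction hU with
    | all => rfl
    | delete U S _ hred ih =>
      subst ih
      rw [no_redundant n S hred, Set.sdiff_empty]
  subst hU'
  have h1 : (fun a b => a ∈ (Set.univ : Set (Vert n)) ∧ b ∈ (Set.univ : Set (Vert n)) ∧
      Arc n a b) = Arc n := by
    funext a b
    simp
  rw [h1] at h
  have := h (Sum.inl none) (Set.mem_univ _) (Sum.inr (false, none)) (Set.mem_univ _) (by simp)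
    (strongly n _ _) (strongly n _ _)
  simp [Arc] at this

/-! ### The game is winnable -/

/-- A sequence covering all residues but `0` and `w`. -/
lemma exists_cover (w : ZMod (n + 2)) (hw : w ≠ 0) :
    ∃ f : Fin n → ZMod (n + 2), ∀ u, u ≠ 0 → u ≠ w → ∃ i, f i = u := by
  classical
  set T := ((univ : Finset (ZMod (n + 2))).erase 0).erase w with hT
  have hTc : T.card = n := by
    rw [hT, card_erase_of_mem (mem_erase.mpr ⟨hw, mem_univ _⟩), card_erase_of_mem (mem_univ _),
      card_univ, ZMod.card]
    omega
  refine ⟨fun i => ((Finset.equivFinOfCardEq hTc).symm i).1, fun u hu0 huw => ?_⟩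
  have hu : u ∈ T := mem_erase.mpr ⟨huw, mem_erase.mpr ⟨hu0, mem_univ _⟩⟩
  exact ⟨Finset.equivFinOfCardEq hTc ⟨u, hu⟩, by simp⟩

lemma residues (u : ZMod (n + 2)) (h : ∀ i : Fin (n + 1), u ≠ 1 + (i : ℕ)) : u = 0 := by
  by_contra hne
  have h1 : (u.val : ZMod (n + 2)) = u := ZMod.natCast_zmod_val u
  have h2 : u.val < n + 2 := ZMod.val_lt u
  have h3 : u.val ≠ 0 := by
    intro h0
    exact hne ((ZMod.val_eq_zero u).mp h0)
  refine h ⟨u.val - 1, by omega⟩ ?_
  have h4 : u.val = 1 + (u.val - 1) := by omega
  calc u = (u.val : ZMod (n + 2)) := h1.symm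
    _ = ((1 + (u.val - 1) : ℕ) : ZMod (n + 2)) := by rw [← h4]
    _ = _ := by push_cast; rfl

theorem game_winnable : Winnable (Arc n) (fun _ => 1) (hat n) := by
  classical
  have e1 : Fin (n + 2) ≃ ZMod (n + 2) := Fintype.equivOfCardEq (by rw [Fintype.card_fin, ZMod.card])
  have e2 : Fin ((n + 2) ^ 2) ≃ (Bool → ZMod (n + 2)) := Fintype.equivOfCardEq (by
    rw [Fintype.card_fin, Fintype.card_fun, ZMod.card, Fintype.card_bool])
  have hcov : ∀ w : ZMod (n + 2), ∃ f : Fin n → ZMod (n + 2), w ≠ 0 →
      ∀ u, u ≠ 0 → u ≠ w → ∃ i, f i = u := by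
    intro w
    by_cases hw : w = 0
    · exact ⟨fun _ => 0, fun h => absurd hw h⟩
    · obtain ⟨f, hf⟩ := exists_cover n w hw
      exact ⟨f, fun _ => hf⟩
  choose f hf using hcov
  -- the values
  let x : (∀ u, Fin (hat n u)) → Bool → ZMod (n + 2) := fun c => e2 (c (Sum.inl none))
  let z : (∀ u, Fin (hat n u)) → Fin n → ZMod (n + 2) := fun c i => e1 (c (Sum.inl (some i)))
  let t : (∀ u, Fin (hat n u)) → Bool → Fin (n + 1) → ZMod (n + 2) := fun c b i =>
    e1 (c (Sum.inr (b, some i)))
  let y : (∀ u, Fin (hat n u)) → Bool → ZMod (n + 2) := fun c b => e1 (c (Sum.inr (b, none)))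
  let S : (∀ u, Fin (hat n u)) → Bool → ZMod (n + 2) := fun c b => ∑ i, t c b i
  let Z : (∀ u, Fin (hat n u)) → ZMod (n + 2) := fun c => ∑ i, z c i
  let δ : (∀ u, Fin (hat n u)) → ZMod (n + 2) := fun c =>
    (x c false - S c false) - (x c true - S c true)
  let w : (∀ u, Fin (hat n u)) → ZMod (n + 2) := fun c => if δ c = 0 then -1 else δ c
  let G : ∀ v : Vert n, (∀ u, Fin (hat n u)) → Fin (hat n v) := fun v c =>
    match v with
    | Sum.inl none => e2.symm fun b => S c b - 1 - Z c
    | Sum.inl (some i) => e1.symm (f (w c) i + S c false - x c false - ∑ j ∈ univ.erase i, z c j)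
    | Sum.inr (b, some i) => e1.symm (y c b + 1 + (i : ℕ) - ∑ j ∈ univ.erase i, t c b j)
    | Sum.inr (b, none) => e1.symm (x c b + Z c)
  refine ⟨fun v c => {G v c}, fun v c => card_singleton _, ?_, ?_⟩
  · intro v c c' hcc
    have key : G v c = G v c' := by
      rcases v with (_ | i) | ⟨b, _ | i⟩
      · have hS : ∀ b, S c b = S c' b := fun b => Finset.sum_congr rfl fun i _ => by
          show e1 (c (Sum.inr (b, some i))) = e1 (c' (Sum.inr (b, some i)))
          rw [hcc (Sum.inr (b, some i)) (by simp [Arc])]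
        have hZ : Z c = Z c' := Finset.sum_congr rfl fun i _ => by
          show e1 (c (Sum.inl (some i))) = e1 (c' (Sum.inl (some i)))
          rw [hcc (Sum.inl (some i)) (by simp [Arc])]
        show e2.symm (fun b => S c b - 1 - Z c) = e2.symm (fun b => S c' b - 1 - Z c')
        simp only [hS, hZ]
      · have hS : ∀ b, S c b = S c' b := fun b => Finset.sum_congr rfl fun i _ => by
          show e1 (c (Sum.inr (b, some i))) = e1 (c' (Sum.inr (b, some i)))
          rw [hcc (Sum.inr (b, some i)) (by simp [Arc])]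
        have hx : ∀ b, x c b = x c' b := fun b => by
          show e2 (c (Sum.inl none)) b = e2 (c' (Sum.inl none)) b
          rw [hcc (Sum.inl none) (by simp [Arc])]
        have hz : ∑ j ∈ univ.erase i, z c j = ∑ j ∈ univ.erase i, z c' j :=
          Finset.sum_congr rfl fun j hj => by
            show e1 (c (Sum.inl (some j))) = e1 (c' (Sum.inl (some j)))
            rw [hcc (Sum.inl (some j)) (by
              have := ne_of_mem_erase hj
              simp [Arc]
              exact fun h => this h.symm)]
        have hδ : δ c = δ c' := by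
          show (x c false - S c false) - (x c true - S c true) =
            (x c' false - S c' false) - (x c' true - S c' true)
          rw [hx, hx, hS, hS]
        have hw : w c = w c' := by
          show (if δ c = 0 then -1 else δ c) = (if δ c' = 0 then -1 else δ c')
          rw [hδ]
        show e1.symm (f (w c) i + S c false - x c false - ∑ j ∈ univ.erase i, z c j) =
          e1.symm (f (w c') i + S c' false - x c' false - ∑ j ∈ univ.erase i, z c' j)
        rw [hw, hS, hx, hz]
      · have hx : ∀ b, x c b = x c' b := fun b => by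
          show e2 (c (Sum.inl none)) b = e2 (c' (Sum.inl none)) b
          rw [hcc (Sum.inl none) (by simp [Arc])]
        have hZ : Z c = Z c' := Finset.sum_congr rfl fun i _ => by
          show e1 (c (Sum.inl (some i))) = e1 (c' (Sum.inl (some i)))
          rw [hcc (Sum.inl (some i)) (by simp [Arc])]
        show e1.symm (x c b + Z c) = e1.symm (x c' b + Z c')
        rw [hx, hZ]
      · have hy : y c b = y c' b := by
          show e1 (c (Sum.inr (b, none))) = e1 (c' (Sum.inr (b, none)))
          rw [hcc (Sum.inr (b, none)) (by simp [Arc])]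
        have ht : ∑ j ∈ univ.erase i, t c b j = ∑ j ∈ univ.erase i, t c' b j :=
          Finset.sum_congr rfl fun j hj => by
            show e1 (c (Sum.inr (b, some j))) = e1 (c' (Sum.inr (b, some j)))
            rw [hcc (Sum.inr (b, some j)) (by
              have := ne_of_mem_erase hj
              simp [Arc]
              exact fun h => this h.symm)]
        show e1.symm (y c b + 1 + (i : ℕ) - ∑ j ∈ univ.erase i, t c b j) =
          e1.symm (y c' b + 1 + (i : ℕ) - ∑ j ∈ univ.erase i, t c' b j)
        rw [hy, ht]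
    show ({G v c} : Finset _) = {G v c'}
    rw [key]
  · intro c
    by_contra hcon
    push Not at hcon
    have hwrong : ∀ v, c v ≠ G v c := fun v h => hcon v (mem_singleton.mpr h)
    -- the vertices `B b`
    have hS : ∀ b, S c b = y c b := by
      intro b
      have h1 : ∀ i : Fin (n + 1), S c b - y c b ≠ 1 + (i : ℕ) := by
        intro i h
        apply hwrong (Sum.inr (b, some i))
        refine (Equiv.eq_symm_apply e1 (x := y c b + 1 + (i : ℕ) - ∑ j ∈ univ.erase i, t c b j)
          (y := c (Sum.inr (b, some i)))).mpr ?_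
        have h2 : S c b = t c b i + ∑ j ∈ univ.erase i, t c b j :=
          (Finset.add_sum_erase univ (t c b) (mem_univ i)).symm
        show t c b i = _
        have h3 : t c b i = S c b - ∑ j ∈ univ.erase i, t c b j := by rw [h2]; ring
        rw [h3, show S c b = y c b + (S c b - y c b) by ring, h]
        ring
      have := residues n _ h1
      exact sub_eq_zero.mp this
    have hSx : ∀ b, S c b ≠ x c b + Z c := by
      intro b h
      apply hwrong (Sum.inr (b, none))
      refine (Equiv.eq_symm_apply e1 (x := x c b + Z c) (y := c (Sum.inr (b, none)))).mpr ?_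
      show y c b = _
      rw [← hS, h]
    have hA : ∀ i, x c false + Z c - S c false ≠ f (w c) i := by
      intro i h
      apply hwrong (Sum.inl (some i))
      refine (Equiv.eq_symm_apply e1
        (x := f (w c) i + S c false - x c false - ∑ j ∈ univ.erase i, z c j)
        (y := c (Sum.inl (some i)))).mpr ?_
      show z c i = _
      have h2 : Z c = z c i + ∑ j ∈ univ.erase i, z c j :=
        (Finset.add_sum_erase univ (z c) (mem_univ i)).symm
      rw [← h, h2]
      ring
    have hN : ¬ ∀ b, x c b + Z c - S c b = -1 := by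
      intro h
      apply hwrong (Sum.inl none)
      refine (Equiv.eq_symm_apply e2 (x := fun b => S c b - 1 - Z c)
        (y := c (Sum.inl none))).mpr ?_
      show x c = _
      funext b
      have := h b
      linear_combination this
    -- the conclusion
    have : Fact (1 < n + 2) := ⟨by omega⟩
    have h01 : (1 : ZMod (n + 2)) ≠ 0 := one_ne_zero
    set u := x c false + Z c - S c false with hu
    have hu0 : u ≠ 0 := fun h => hSx false (by rw [hu, sub_eq_zero] at h; exact h.symm)
    have hu1 : x c true + Z c - S c true = u - δ c := by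
      show x c true + Z c - S c true = u - ((x c false - S c false) - (x c true - S c true))
      rw [hu]; ring
    have hu2 : u - δ c ≠ 0 := fun h => hSx true (by rw [← hu1, sub_eq_zero] at h; exact h.symm)
    by_cases hδ : δ c = 0
    · have hw : w c = -1 := if_pos hδ
      have h1 : u = -1 := by
        by_contra hne
        obtain ⟨i, hi⟩ := hf (w c) (by rw [hw]; exact neg_ne_zero.mpr h01) u hu0
          (by rw [hw]; exact hne)
        exact hA i hi.symm
      apply hN
      intro b
      cases b
      · exact h1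
      · rw [hu1, hδ, sub_zero, h1]
    · have hw : w c = δ c := if_neg hδ
      have h1 : u = δ c := by
        by_contra hne
        obtain ⟨i, hi⟩ := hf (w c) (by rw [hw]; exact hδ) u hu0 (by rw [hw]; exact hne)
        exact hA i hi.symm
      exact hu2 (by rw [h1, sub_self])


/-! ### The upper bound -/

/-- A colouring from its parts. -/
def mk {m : ℕ} (cA : Option (Fin n) → Fin m) (xB : Bool → Fin (n + 1) → Fin m) (yB : Bool → Fin m) :
    Vert n → Fin m
  | Sum.inl j => cA j
  | Sum.inr (b, some i) => xB b i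
  | Sum.inr (b, none) => yB b

theorem upper (s m : ℕ) (hw : Winnable (Arc n) (fun _ => s) (fun _ => m)) : m ≤ (n + 2) * s := by
  classical
  by_contra hcon
  push Not at hcon
  obtain ⟨G, hG1, hG2, hG3⟩ := hw
  have hm0 : 0 < m := by omega
  let o : Fin m := ⟨0, hm0⟩
  -- the cliques `B b`
  have hB : ∀ b : Bool, ∃ x : Fin (n + 1) → Fin m, s < (univ.filter fun y : Fin m =>
      ∀ i, x i ∉ G (Sum.inr (b, some i)) (mk n (fun _ => o) (fun _ => x) (fun _ => y))).card := by
    intro b
    have hdep : ∀ (y : Fin m) (i : Fin (n + 1)) (x : Fin (n + 1) → Fin m) (a : Fin m),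
        G (Sum.inr (b, some i)) (mk n (fun _ => o) (fun _ => Function.update x i a) (fun _ => y)) =
        G (Sum.inr (b, some i)) (mk n (fun _ => o) (fun _ => x) (fun _ => y)) := by
      intro y i x a
      refine hG2 _ _ _ fun u hu => ?_
      rcases u with j | ⟨b', _ | j⟩
      · simp [Arc] at hu
      · rfl
      · simp only [Arc] at hu
        show Function.update x i a j = x j
        rw [Function.update_of_ne (Ne.symm hu.2)]
    obtain ⟨x, hx⟩ := exists_many (fun y i x => G (Sum.inr (b, some i)) (mk n (fun _ => o)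
      (fun _ => x) (fun _ => y))) (fun y i x => (hG1 _ _).le) hdep
      (by rw [Fintype.card_fin]; exact hcon)
    refine ⟨x, lt_of_lt_of_eq hx ?_⟩
    congr
  choose xB hxB using hB
  -- the clique `A`
  obtain ⟨cA, hcA⟩ := exists_wrong (ι := Option (Fin n)) (m := m) (s := s)
    (fun j c => G (Sum.inl j) (mk n c xB (fun _ => o))) (fun j c => (hG1 _ _).le) (by
      intro j c a
      refine hG2 _ _ _ fun u hu => ?_
      rcases u with j' | ⟨b', _ | j'⟩
      · simp only [Arc] at hu
        show Function.update c j a j' = c j'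
        rw [Function.update_of_ne (Ne.symm hu)]
      · rfl
      · rfl) (by
      rw [Fintype.card_option, Fintype.card_fin]
      refine lt_of_le_of_lt ?_ hcon
      exact Nat.mul_le_mul_right _ (by omega))
  -- the vertices `y b`
  have hY : ∀ b : Bool, ∃ y : Fin m,
      (∀ i, xB b i ∉ G (Sum.inr (b, some i)) (mk n (fun _ => o) (fun _ => xB b) (fun _ => y))) ∧
      y ∉ G (Sum.inr (b, none)) (mk n cA (fun _ _ => o) (fun _ => o)) := by
    intro b
    by_contra hno
    push Not at hno
    have h1 : (univ.filter fun y : Fin m => ∀ i, xB b i ∉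
        G (Sum.inr (b, some i)) (mk n (fun _ => o) (fun _ => xB b) (fun _ => y))) ⊆
        G (Sum.inr (b, none)) (mk n cA (fun _ _ => o) (fun _ => o)) := by
      intro y hy
      exact hno y (mem_filter.mp hy).2
    have h2 := (card_le_card h1).trans (hG1 _ _).le
    exact absurd (hxB b) (not_lt.mpr h2)
  choose yB hyB using hY
  obtain ⟨v, hv⟩ := hG3 (mk n cA xB yB)
  rcases v with j | ⟨b, _ | i⟩
  · apply hcA j
    have : G (Sum.inl j) (mk n cA xB (fun _ => o)) = G (Sum.inl j) (mk n cA xB yB) := by
      refine hG2 _ _ _ fun u hu => ?_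
      rcases u with j' | ⟨b', _ | j'⟩
      · rfl
      · simp [Arc] at hu
      · rfl
    rw [this]
    exact hv
  · apply (hyB b).2
    have : G (Sum.inr (b, none)) (mk n cA (fun _ _ => o) (fun _ => o)) =
        G (Sum.inr (b, none)) (mk n cA xB yB) := by
      refine hG2 _ _ _ fun u hu => ?_
      rcases u with j' | ⟨b', _ | j'⟩
      · rfl
      · simp [Arc] at hu
      · simp [Arc] at hu
    rw [this]
    exact hv
  · apply (hyB b).1 i
    have : G (Sum.inr (b, some i)) (mk n (fun _ => o) (fun _ => xB b) (fun _ => yB b)) =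
        G (Sum.inr (b, some i)) (mk n cA xB yB) := by
      refine hG2 _ _ _ fun u hu => ?_
      rcases u with j' | ⟨b', _ | j'⟩
      · simp [Arc] at hu
      · simp only [Arc] at hu
        subst hu
        rfl
      · simp only [Arc] at hu
        obtain ⟨rfl, _⟩ := hu
        rfl
    rw [this]
    exact hv

lemma muHat : IsMuHat (Arc n) ((n + 2 : ℕ) : ℝ) := by
  have h1 : IsMu (Arc n) 1 (n + 2) := by
    refine ⟨⟨by omega, winnable_mono (Arc n) (fun _ => 1) (hat n) (fun _ => n + 2) ?_ ?_
      (game_winnable n)⟩, ?_⟩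
    · rintro ((_ | i) | i)
      · show n + 2 ≤ (n + 2) ^ 2
        exact Nat.le_self_pow (by norm_num) _
      · exact le_rfl
      · exact le_rfl
    · intro v
      show 1 ≤ n + 2
      omega
    · rintro m ⟨_, hm⟩
      have := upper n 1 m hm
      omega
  refine IsGreatest.isLUB ⟨⟨1, n + 2, le_rfl, h1, by simp⟩, ?_⟩
  rintro y ⟨s, m, hs, hm, rfl⟩
  have h2 := upper n s m hm.1.2
  have hs' : (0 : ℝ) < s := by exact_mod_cast hs
  rw [div_le_iff₀ hs']
  exact_mod_cast h2

end Example

/-- For every `k ≥ 2` the assertion of Q1 fails, with a strongly connected digraph without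
redundant sets, and for `k ≤ 1` it holds. -/
theorem result :
    (∀ k : ℕ, 2 ≤ k → ∃ (V : Type) (_ : Fintype V) (E : V → V → Prop) (h : V → ℕ),
      (∀ v, ¬ E v v) ∧ StronglyConnected E ∧ (∀ S, RedundantIn E Set.univ S → S = ∅) ∧
      ¬ IsTrivial E ∧ (∀ v, k ≤ h v) ∧ (∃ v, h v ≠ k) ∧ Winnable E (fun _ => 1) h ∧
      IsMuHat E k) ∧
    ∀ k : ℕ, k ≤ 1 → ∀ (V : Type) [Fintype V] (E : V → V → Prop) (h : V → ℕ), (∀ v, ¬ E v v) →
      (∀ v, 2 ≤ h v) → Winnable E (fun _ => 1) h → ∀ x : ℝ, IsMuHat E x → k < x := by
  constructor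
  · intro k hk
    obtain ⟨n, rfl⟩ : ∃ n, k = n + 2 := ⟨k - 2, by omega⟩
    refine ⟨Vert n, inferInstance, Arc n, hat n, arc_irrefl n, strongly n, no_redundant n,
      not_trivial n, ?_, ⟨Sum.inl none, ?_⟩, game_winnable n, muHat n⟩
    · rintro ((_ | i) | i)
      · show n + 2 ≤ (n + 2) ^ 2
        exact Nat.le_self_pow (by norm_num) _
      · exact le_rfl
      · exact le_rfl
    · show (n + 2) ^ 2 ≠ n + 2
      intro h
      nlinarith
  · intro k hk V _ E h hE hh hw x hx
    have h2 : Winnable E (fun _ => 1) (fun _ => 2) :=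
      winnable_mono E (fun _ => 1) h (fun _ => 2) hh (fun _ => by norm_num) hw
    have hfin : ∃ m, IsMu E 1 m := by
      have hbd : BddAbove {m : ℕ | 1 < m ∧ Winnable E (fun _ => 1) (fun _ => m)} :=
        ⟨Fintype.card V * 1, fun m hm => winnable_le_card E hE 1 m hm.2⟩
      have hne : {m : ℕ | 1 < m ∧ Winnable E (fun _ => 1) (fun _ => m)}.Nonempty :=
        ⟨2, by norm_num, h2⟩
      exact ⟨_, Nat.sSup_mem hne hbd, fun m hm => le_csSup hbd hm⟩
    obtain ⟨m, hm⟩ := hfin
    have h3 : 2 ≤ m := hm.2 ⟨by norm_num, h2⟩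
    have h4 : ((m : ℝ) / (1 : ℕ)) ≤ x := hx.1 ⟨1, m, le_rfl, hm, rfl⟩
    have h5 : (2 : ℝ) ≤ m := by exact_mod_cast h3
    have h6 : (k : ℝ) ≤ 1 := by exact_mod_cast hk
    rw [Nat.cast_one, div_one] at h4
    linarith

end Pool.Agent.Results.MP_22519f_co.DigraphCounterexample
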